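import Pool.Agent.Y691.TU.Hod

/-!
# Full faithfulness of the Hodge realisation and cubic hypersurfaces
-/

set_option autoImplicit false

open CategoryTheory CategoryTheory.Limits AlgebraicGeometry Pool.Agent.Y116.UV
  Pool.Agent.Y101.Th Pool.Agent.Y691.TU

namespace Pool.Agent.Results.MP_0da4e0_ag.CubicHypersurfaces

universe v u v' u'

/-- **The Hodge realisation and cubic hypersurfaces.** Let `k` be an algebraically closed field with
an embedding into `ℂ`, `C` the category of motives for absolute Hodge cycles over `k`, `D` the graded
pieces `gr^W_w H^j_c(X)` as objects of `C`, and `F` the Hodge realisation, with their known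
properties; `threefolds` is the known case of the Hodge classes on varieties of dimension at most
three.

* `F` is full if and only if all Hodge classes of all Tate twists of all direct summands of the pieces
  of the smooth affine cubic hypersurfaces `t(x, y, z) = 1` are absolute Hodge, for all trilinear
  forms `t` over `k`.
* For each `n` this is true for all Tate twists of all direct summands of the cohomology of the
  smooth projective schemes of dimension at most `n` if and only if it is true for the hypersurfaces
  `t(x, y, z) = 1` for all `t` with a block of at most `n + 2` variables.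
* It is true for the hypersurfaces `t(x, y, z) = 1` for all `t` with a block of at most five
  variables. -/
theorem result {k : Type} [Field k] [CharZero k] [IsAlgClosed k] {C : Type u} [Category.{v} C]
    [Abelian C] {D : Graded k C} [D.L.IsEquivalence] {Hod : Type u'} [Category.{v'} Hod]
    [Preadditive Hod] (F : C ⥤ Hod) [F.Additive] (hk : Resolution k) (hC : Semisimple C)
    (hD : IsGraded D) (hG : ∀ M : C, Gen D M) (hF : HasDuality F D.one)
    (threefolds : ∀ X : Sch k, SmProj X → topologicalKrullDim X.left ≤ 3 → ∀ i,
      Every D.L (HodgeAbsolute F D.one) (D.H X i i)) :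
    (F.Full ↔ ∀ (a b c : ℕ) (t : Fin a → Fin b → Fin c → k) (w j : ℤ),
      Every D.L (HodgeAbsolute F D.one) (D.H (hypS t) w j)) ∧
    (∀ n : ℕ,
      (∀ X : Sch k, SmProj X → topologicalKrullDim X.left ≤ n → ∀ i,
          Every D.L (HodgeAbsolute F D.one) (D.H X i i)) ↔
        ∀ (a b c : ℕ) (t : Fin a → Fin b → Fin c → k), (a ≤ n + 2 ∨ b ≤ n + 2 ∨ c ≤ n + 2) →
          ∀ w j, Every D.L (HodgeAbsolute F D.one) (D.H (hypS t) w j)) ∧
    ∀ (a b c : ℕ) (t : Fin a → Fin b → Fin c → k), (a ≤ 5 ∨ b ≤ 5 ∨ c ≤ 5) →
      ∀ w j, Every D.L (HodgeAbsolute F D.one) (D.H (hypS t) w j) := by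
  have hR := additive_hodge F D.one
  have h1 : Every D.L (HodgeAbsolute F D.one) D.one := every_unit hk hD fun X hX hd i =>
    threefolds X hX (hd.trans (by norm_num)) i
  refine ⟨(full_iff F D.one hF).trans (every_all hk hC hD hG hR h1),
    every_dim hk hC hD hR h1, ?_⟩
  exact (every_dim hk hC hD hR h1 3).mp (by exact_mod_cast threefolds)

end Pool.Agent.Results.MP_0da4e0_ag.CubicHypersurfaces
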