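import Pool.Agent.Y113.MT.TupT
import Pool.Agent.Y730.MT.Nf
import Pool.Agent.Y730.MT.Td
import Pool.Agent.Y46.MT.Kw
import Pool.Agent.Y921.MT.Rb
import Pool.Agent.Y861.MT.WF
import Pool.Agent.Y130.MT.TN
import Pool.Agent.Y154.MT.Fqc
import Pool.Agent.Y988.MT.Tyc
import Pool.Agent.Y455.MT.Tbc

/-!
# Hodge classes on products of several fibres of the hypergeometric variations of Hodge structure of rank at least 4

Let `β_1, …, β_m` be rational numbers in `(0, 1)` and `θ = z d/dz`. The hypergeometric operator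
`θ^(2m) - z ∏_j (θ + β_j) (θ + 1 - β_j)` has maximally unipotent monodromy at `z = 0` and underlies an irreducible
variation of Hodge structure of rank `2m` and of weight `2m - 1` with all Hodge numbers `h^{p,q} = 1` on the projective
line minus three points. For `m = 2` and `β = (1/5, 2/5)` it is the variation of the third cohomology of the mirror
quintics, for `β_j = j / (2m + 1)` the variation of the middle cohomology of the mirrors `X_t`, over `ℚ`, of the Calabi–Yau
hypersurfaces of degree `2m + 1` in the projective space of dimension `2m`; the other cohomology of `X_t` is spanned by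
classes of algebraic cycles.

We prove for all `m ≥ 2`: for all sufficiently large `G` there is an exponent `E` such that for all `B`, `t` with
`(B + 2)^E ≤ t` and for all rational structures there is a set `S` of at most `m + 2` exceptions with the following property.
Let `V_1, …, V_k` be any number of fibres at different points `z = 1 / (t - G u)`, `1 ≤ u ≤ B`, `u ∉ S`, and let `W` be a
rational vector space with a grading of its complexification (for example the first cohomology of an abelian variety, or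
the cohomology of the disjoint union of several varieties of dimension `< 2m - 1`, graded by the first Hodge index) in
which no two degrees differ by `2m - 1`. Then every Hodge class in `⨂_a V_{c(a)} ⊗ W^{⊗ j}` is a combination of products of the
polarisations on pairs of factors of the same colour `c(a) ∈ {1, …, k}` and of Hodge classes in `W^{⊗ j}`. So all Hodge
classes on `Y × ∏_i X_{t_i}^{r_i}`, where `Y` is an abelian variety, are absolute Hodge. -/

set_option autoImplicit false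

open PowerSeries

namespace Pool.Agent.Results.MP_0da4e0_ag.HodgeTuples

/-- the power series `x + ε` in the variable `ε` -/
noncomputable def shift (x : ℚ) : PowerSeries ℚ := C x + X

/-- `a_k(ε) = ∏_{l < k} ∏_j (l + ε + β_j) (l + ε + 1 - β_j) / (l + 1 + ε)^2`. The series `∑_k a_k(ε) z^(k + ε)` satisfies
`(θ^n - z ∏_j (θ + β_j) (θ + 1 - β_j)) f = ε^n z^ε`, `n = 2m`, hence its coefficients `f_j` at `ε^j` with `j < n` are
solutions of the homogeneous equation. -/
noncomputable def frob {m : ℕ} (β : Fin m → ℚ) (k : ℕ) : PowerSeries ℚ :=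
  ∏ l ∈ Finset.range k, ∏ j, (shift (l + β j) * shift (l + 1 - β j) * ((shift (l + 1))⁻¹) ^ 2)

/-- The row `((θ^i f_j)(1 / t))_j`, where `f_j(z)` is the coefficient of `ε^j` in the series `∑_k a_k(ε) z^(k + ε)`,
`z^ε = ∑_l (log z)^l ε^l / l!`. -/
noncomputable def per {m : ℕ} (β : Fin m → ℚ) (t i : ℕ) : Fin (2 * m) → ℂ := fun j =>
  ∑ l ∈ Finset.range ((j : ℕ) + 1), ((Real.log (1 / t) ^ l / l.factorial : ℝ) : ℂ) *
    ∑' k : ℕ, ((coeff ((j : ℕ) - l) (shift k ^ i * frob β k) : ℚ) : ℂ) * (1 / (t : ℂ)) ^ k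

/-- The nilpotent matrix: `exp (2 π i N)` is the local monodromy at `z = 0` in the basis `f_0, …, f_{n-1}`. -/
def N (n : ℕ) : Matrix (Fin n) (Fin n) ℂ := Matrix.of fun i j => if (j : ℕ) = i + 1 then 1 else 0

/-- the matrix of the flat alternating form in the Frobenius basis -/
def S (n : ℕ) : Matrix (Fin n) (Fin n) ℂ := Matrix.of fun i j => if (i : ℕ) + j + 1 = n then (-1) ^ (i : ℕ) else 0

/-- a rational matrix as a complex matrix -/
def toC {n : ℕ} (M : Matrix (Fin n) (Fin n) ℚ) : Matrix (Fin n) (Fin n) ℂ := M.map fun x : ℚ => (x : ℂ)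

/-- The base change `C` from the Frobenius basis to rational coordinates and the rational form `(v, w) ↦ v A wᵀ` on
`ℚ^n` (row vectors) are a rational structure with a form: the logarithm `2 π i C⁻¹ N C` of the local monodromy is rational
and the form is proportional to the flat form `S`. -/
structure RationalStructure {n : ℕ} (C : Matrix (Fin n) (Fin n) ℂ) (A : Matrix (Fin n) (Fin n) ℚ) : Prop where
  det : C.det ≠ 0
  log : ∃ M : Matrix (Fin n) (Fin n) ℚ, C * toC M = (2 * (Real.pi : ℂ) * Complex.I) • (N n * C)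
  form : ∃ κ : ℂ, κ ≠ 0 ∧ C * toC A * C.transpose = κ • S n

/-- `H p = H^{p, n-1-p}`, `p < n = 2m`, are the parts of a Hodge structure of weight `n - 1` on `ℚ^n`, polarised by `± A`,
the steps `F^p = ⨁_{r ≥ p} H^{r, n-1-r}`, `p ≥ m`, of whose Hodge filtration are the spans of the derivatives of order
`< n - p` of the period vector at the point `z = 1 / t` (the other steps are their orthogonal complements). -/
structure IsFibre {m : ℕ} (β : Fin m → ℚ) (t : ℕ) (C : Matrix (Fin (2 * m)) (Fin (2 * m)) ℂ)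
    (A : Matrix (Fin (2 * m)) (Fin (2 * m)) ℚ) (H : ℕ → Submodule ℂ (Fin (2 * m) → ℂ)) : Prop where
  fil : ∀ p, m ≤ p → (⨆ r : {r : ℕ // p ≤ r ∧ r < 2 * m}, H r) =
    Submodule.span ℂ {v | ∃ i : ℕ, i + p < 2 * m ∧ v = Matrix.vecMul (per β t i) C}
  conj : ∀ p < 2 * m, ∀ v ∈ H p, (fun i => star (v i)) ∈ H (2 * m - 1 - p)
  orth : ∀ p < 2 * m, ∀ r < 2 * m, p + r ≠ 2 * m - 1 → ∀ v ∈ H p, ∀ w ∈ H r,
    dotProduct v (Matrix.mulVec (toC A) w) = 0
  pos : ∃ ε : ℂ, (ε = 1 ∨ ε = -1) ∧ ∀ p < 2 * m, ∀ v ∈ H p, v ≠ 0 →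
    0 < (ε * (Complex.I ^ p * (-Complex.I) ^ (2 * m - 1 - p)) *
      dotProduct v (Matrix.mulVec (toC A) fun i => star (v i))).re

/-- The tensors of type `P` in `V_{c 1} ⊗ ⋯ ⊗ V_{c r} ⊗ W^{⊗ j}` (complexified), in coordinates: functions of a multi-index
`J` for the first `r` factors, each of them is `V_i = ℚ^(2m)` with the Hodge decomposition `V i` for some `i = c a`, and of a
multi-index `K` for `W^{⊗ j}`, `W = ℚ^d`. They are spanned by the products of vectors `v_a ∈ V_{c a}^{p_a, 2m-1-p_a}` and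
`w_b ∈ W` of degree `q_b` with `∑ p_a + ∑ q_b = P`. If `W` is a Hodge structure and `U q` is the sum of its parts of type
`(q, *)`, the rational tensors of type `P` and weight `2P` are the Hodge classes. -/
def OfType {m k d r : ℕ} (V : Fin k → ℕ → Submodule ℂ (Fin (2 * m) → ℂ)) (c : Fin r → Fin k)
    (U : ℤ → Submodule ℂ (Fin d → ℂ)) (j : ℕ) (P : ℤ) : Submodule ℂ ((Fin r → Fin (2 * m)) → (Fin j → Fin d) → ℂ) :=
  Submodule.span ℂ {f | ∃ (p : Fin r → ℕ) (v : Fin r → Fin (2 * m) → ℂ) (q : Fin j → ℤ) (w : Fin j → Fin d → ℂ),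
    (∀ a, p a < 2 * m ∧ v a ∈ V (c a) (p a)) ∧ (∀ b, w b ∈ U (q b)) ∧ ∑ a, (p a : ℤ) + ∑ b, q b = P ∧
    f = fun J K => (∏ a, v a (J a)) * ∏ b, w b (K b)}

/-- the tensors of type `P` in `W_ℂ^{⊗ j}` -/
def OfTypeW {d : ℕ} (U : ℤ → Submodule ℂ (Fin d → ℂ)) (j : ℕ) (P : ℤ) : Submodule ℂ ((Fin j → Fin d) → ℂ) :=
  Submodule.span ℂ {z | ∃ (q : Fin j → ℤ) (w : Fin j → Fin d → ℂ), (∀ b, w b ∈ U (q b)) ∧ ∑ b, q b = P ∧
    z = fun K => ∏ b, w b (K b)}

/-- The rational tensors of type `P` in `V_{c 1} ⊗ ⋯ ⊗ V_{c r} ⊗ W^{⊗ j}` which are combinations of products of the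
polarisations: `r = 2s`, the first `r` factors are paired by a bijection `e : {1, …, s} × {1, 2} ≃ {1, …, r}` such that the
two factors of each pair have the same colour (are the same `V_i`), on each pair stands the tensor `A⁻¹` in `V_i ⊗ V_i`
(the dual form, of type `2m - 1`), and the coefficient `z` is a rational tensor of type `P - s (2m - 1)` in `W^{⊗ j}`. -/
def Products {m k d r : ℕ} (A : Matrix (Fin (2 * m)) (Fin (2 * m)) ℚ) (c : Fin r → Fin k)
    (U : ℤ → Submodule ℂ (Fin d → ℂ)) (j : ℕ) (P : ℤ) : Submodule ℚ ((Fin r → Fin (2 * m)) → (Fin j → Fin d) → ℚ) :=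
  Submodule.span ℚ {f | ∃ (s : ℕ) (e : Fin s × Fin 2 ≃ Fin r) (z : (Fin j → Fin d) → ℚ),
    (∀ l, c (e (l, 0)) = c (e (l, 1))) ∧ (fun K => ((z K : ℚ) : ℂ)) ∈ OfTypeW U j (P - (s : ℤ) * (2 * (m : ℤ) - 1)) ∧
    f = fun J K => (∏ l, A⁻¹ (J (e (l, 0))) (J (e (l, 1)))) * z K}

/-- For all `r`, `j`, `c : {1, …, r} → {1, …, k}` and `P` every rational tensor of type `P` in
`V_{c 1} ⊗ ⋯ ⊗ V_{c r} ⊗ W^{⊗ j}` is a combination of products of the polarisations on pairs of factors of the same colour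
and rational tensors of type `P - r (2m - 1) / 2` in `W^{⊗ j}`. -/
def OnlyProducts {m k d : ℕ} (A : Matrix (Fin (2 * m)) (Fin (2 * m)) ℚ) (V : Fin k → ℕ → Submodule ℂ (Fin (2 * m) → ℂ))
    (U : ℤ → Submodule ℂ (Fin d → ℂ)) : Prop :=
  ∀ (r j : ℕ) (c : Fin r → Fin k) (P : ℤ) (T : (Fin r → Fin (2 * m)) → (Fin j → Fin d) → ℚ),
    (fun J K => ((T J K : ℚ) : ℂ)) ∈ OfType V c U j P → T ∈ Products A c U j P

theorem N_eq (n : ℕ) : N n = Pool.Agent.Y113.MT.NN ℂ n := rfl

theorem S_eq (n : ℕ) : S n = Pool.Agent.Y113.MT.SS ℂ n := rfl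

theorem toC_eq {n : ℕ} (M : Matrix (Fin n) (Fin n) ℚ) : toC M = Pool.Agent.Y113.MT.cq M := rfl

/-- Let `m ≥ 2` and let `β_1, …, β_m` be rational numbers in `(0, 1)`. For all sufficiently large `G` there is `E` such that
for all `B`, `t` with `(B + 2)^E ≤ t` and all rational structures `(C, A)` there is a set `S` with at most `m + 2` elements
such that for all `k` and all different `u_1, …, u_k ∈ {1, …, B}` outside `S`, all Hodge structures `V_1, …, V_k` on
`ℚ^(2m)` polarised by `± A` which are the fibres of the hypergeometric variation at the points `z = 1 / (t - G u_i)`, and all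
`W = ℚ^d` with a `ℤ`-grading `U` of `W_ℂ` such that `U (p - (2m - 1)) = 0` if `U p ≠ 0`: all rational tensors of type `P`
in `V_{c 1} ⊗ ⋯ ⊗ V_{c r} ⊗ W^{⊗ j}` (all `r`, `j`, `c`, `P`) are combinations of products of the polarisations on pairs of
factors of the same colour and rational tensors of type `P - r (2m - 1) / 2` in `W^{⊗ j}`. -/
theorem result {m : ℕ} (hm : 2 ≤ m) (β : Fin m → ℚ) (hβ : ∀ j, 0 < β j ∧ β j < 1) :
    ∃ G0 : ℕ, ∀ G : ℕ, G0 ≤ G → ∃ E : ℕ, ∀ B t : ℕ, (B + 2) ^ E ≤ t → G * B < t ∧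
      ∀ (C : Matrix (Fin (2 * m)) (Fin (2 * m)) ℂ) (A : Matrix (Fin (2 * m)) (Fin (2 * m)) ℚ), RationalStructure C A →
      ∃ S : Finset ℕ, S.card ≤ m + 2 ∧
      ∀ (k : ℕ) (u : Fin k → ℕ), Function.Injective u → (∀ i, 1 ≤ u i ∧ u i ≤ B ∧ u i ∉ S) →
      ∀ V : Fin k → ℕ → Submodule ℂ (Fin (2 * m) → ℂ), (∀ i, IsFibre β (t - G * u i) C A (V i)) →
      ∀ (d : ℕ) (U : ℤ → Submodule ℂ (Fin d → ℂ)), DirectSum.IsInternal U →
      (∀ p : ℤ, U p ≠ ⊥ → U (p - (2 * (m : ℤ) - 1)) = ⊥) → OnlyProducts A V U := by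
  have hβ' : ∀ j, ∀ a : ℤ, β j ≠ a := by
    intro j a h
    have h1 := hβ j
    rw [h] at h1
    have h2 : (0 : ℤ) < a := by exact_mod_cast h1.1
    have h3 : a < (1 : ℤ) := by exact_mod_cast h1.2
    omega
  have hpi : (2 * (Real.pi : ℂ) * Complex.I) ≠ 0 := Complex.two_pi_I_ne_zero
  obtain ⟨G0, h0⟩ := Pool.Agent.Y113.MT.tup_tensor Pool.Agent.Y46.MT.kw Pool.Agent.Y730.MT.nf Pool.Agent.Y730.MT.td
    Pool.Agent.Y921.MT.rb Pool.Agent.Y861.MT.wf Pool.Agent.Y130.MT.tn Pool.Agent.Y154.MT.fqc Pool.Agent.Y988.MT.tyc Pool.Agent.Y455.MT.tbc hm hβ'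
  refine ⟨G0, fun G hG => ?_⟩
  obtain ⟨E, hE⟩ := h0 G hG
  refine ⟨E, fun B t ht => ?_⟩
  obtain ⟨h1, h2⟩ := hE B t ht
  refine ⟨by have := h1 B le_rfl; omega, fun C A hC => ?_⟩
  obtain ⟨hdet, ⟨M, hM⟩, κ, hκ, hA⟩ := hC
  obtain ⟨S, hS, hS2⟩ := h2 C M _ hdet hpi hM
  refine ⟨S, hS, fun k u hu huS V hV d U hU hW => ?_⟩
  obtain ⟨-, htens⟩ := hS2 k u hu huS (fun _ => A) (fun _ => κ) (fun _ => hκ) (fun _ => hA)
    (fun i p => ⨆ r : {r : ℕ // p ≤ r ∧ r < 2 * m}, V i r) V (fun i p hp => (hV i).fil p hp)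
    (fun i => ⟨fun _ => rfl, (hV i).conj, (hV i).orth, (hV i).pos⟩) d U hU hW
  exact fun r j c P T hT => htens r j c P T hT

end Pool.Agent.Results.MP_0da4e0_ag.HodgeTuples
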