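import Pool.Agent.Y456.LG.Full

/-!
# Full faithfulness of the Hodge realisation and the endomorphisms of one linear section of `GL_m`

Let `k` be an algebraically closed field with an embedding into `ℂ`. A sparse linear section of `GL_m` over
`k` is the scheme `U_M` of the points `x` of the affine space `𝔸^d` such that the matrix `M(x)` is
invertible, where `M` is a square matrix each of whose entries is a constant or one of the `d` variables,
in which each variable occurs, with at most three nonzero entries in every row and in every column and
with `det M ≠ 0` (`Good Set.univ M`). It is open in the affine space and closed in `GL_m`. Its pure motive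
`h(U_M)` (`hSec D M`) is the direct sum of all weight graded pieces `gr^W_w H^j_c(U_M)`.

The motives for absolute Hodge cycles and the Hodge realisation `F` are given by their known properties
(`IsGraded`, `IsTensor`, `CommTwist`).

1. Every motive is, up to a Tate twist, a direct summand of `h(U_M)` for ONE sparse linear section `U_M`.
2. The Hodge realisation is full if and only if for every sparse linear section `U_M` all endomorphisms of
   the Hodge structure of `h(U_M)` come from endomorphisms of the motive `h(U_M)`.
3. For all motives `A`, `B` there is a sparse linear section `U_M` such that, if this is true for `U_M`, then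
   all morphisms from `F(A)` to `F(B)` come from morphisms from `A` to `B`.
4. For each `n`, all Hodge classes of all Tate twists of all direct summands of the cohomology of the
   smooth projective schemes of dimension at most `n` are absolute Hodge if and only if this is true for
   the pieces of the sparse linear sections of `GL_m`, all `m`, of dimension `n + 1`.
5. It is true for the pieces of all linear sections of `GL_m` of dimension four (indeed for the
   complements of all hypersurfaces of the affine space of dimension four).
-/

set_option autoImplicit false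

open CategoryTheory CategoryTheory.Limits MonoidalCategory AlgebraicGeometry MvPolynomial
  Pool.Agent.Y116.UV Pool.Agent.Y101.Th Pool.Agent.Y691.TU Pool.Agent.Z125.UN Pool.Agent.Y456.LG

namespace Pool.Agent.Results.MP_0da4e0_ag.OneLinearSection

universe v u v' u'

/-- Full faithfulness of the Hodge realisation is a question about the endomorphisms of single sparse
linear sections of `GL_m`, and every motive is a direct summand of the motive of one of them, up to a Tate
twist. -/
theorem result {k : Type} [Field k] [CharZero k] [IsAlgClosed k] {C : Type u} [Category.{v} C]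
    [Abelian C] [HasFiniteBiproducts C] [MonoidalCategory C] [MonoidalPreadditive C]
    [BraidedCategory C] {D : Graded k C} [D.L.IsEquivalence] {T : C}
    {Hod : Type u'} [Category.{v'} Hod] [Preadditive Hod] (F : C ⥤ Hod) [F.Additive]
    (hk : Resolution k) (hC : Semisimple C) (hD : IsGraded D) (hT : IsTensor D T)
    (hF : CommTwist F D.L)
    (threefolds : ∀ X : Sch k, SmProj X → topologicalKrullDim X.left ≤ 3 → ∀ i,
      Every D.L (HodgeAbsolute F D.one) (D.H X i i)) :
    (∀ N : C, ∃ (n d m : ℕ) (M : Matrix (Fin m) (Fin m) (MvPolynomial (Fin d) k))
        (s : Pool.Agent.Y691.TU.tw D.L n N ⟶ hSec D M)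
        (r : hSec D M ⟶ Pool.Agent.Y691.TU.tw D.L n N), Good Set.univ M ∧ s ≫ r = 𝟙 _) ∧
    (F.Full ↔ ∀ (d m : ℕ) (M : Matrix (Fin m) (Fin m) (MvPolynomial (Fin d) k)),
      Good Set.univ M → FullOn F (hSec D M) (hSec D M)) ∧
    (∀ A B : C, ∃ (d m : ℕ) (M : Matrix (Fin m) (Fin m) (MvPolynomial (Fin d) k)),
      Good Set.univ M ∧ (FullOn F (hSec D M) (hSec D M) → FullOn F A B)) ∧
    (∀ n : ℕ,
      (∀ X : Sch k, SmProj X → topologicalKrullDim X.left ≤ n → ∀ i,
          Every D.L (HodgeAbsolute F D.one) (D.H X i i)) ↔
        ∀ (m : ℕ) (M : Matrix (Fin m) (Fin m) (MvPolynomial (Fin (n + 1)) k)),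
          IsPat Set.univ M → Thin M → ∀ w j,
            Every D.L (HodgeAbsolute F D.one) (D.H (secGL M) w j)) ∧
    ∀ (m : ℕ) (M : Matrix (Fin m) (Fin m) (MvPolynomial (Fin 4) k)) (w j : ℤ),
      Every D.L (HodgeAbsolute F D.one) (D.H (secGL M) w j) := by
  have hS : Enough (Set.univ : Set k) := enough_univ
  have hR := additive_hodge F D.one
  have h1 : Every D.L (HodgeAbsolute F D.one) D.one := every_unit hk hD fun X hX hd i =>
    threefolds X hX (hd.trans (by norm_num)) i
  refine ⟨fun N => ?_, full_sec hS hC hD hT hF, fun A B => ?_,
    every_dim_sec hS hk hC hD hR h1, ?_⟩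
  · obtain ⟨n, d, m, M, h2, s, r, h3⟩ := summ_all hS hC hD hT N
    exact ⟨n, d, m, M, s, r, h2, h3⟩
  · obtain ⟨d, m, M, h2, h3⟩ := fullOn_pair hS hC hD hT A B
    exact ⟨d, m, M, h2, fun h => h3 F hF h⟩
  · intro m M
    have hQ := stable_every hC hR h1
    have hB := bnd_pieces hC hD hQ
    refine away_of_dim hB (n := 3) (fun A _ _ _ hA => ?_) M.det
    refine of_smproj hk hB 3 (fun X hX hd => (pieces_smproj hD hQ hX).mpr fun i => ?_) (aff k A)
      (ft_aff True) ?_
    · exact threefolds X hX (by exact_mod_cast hd) i
    · rw [topDim_aff]
      exact hA

end Pool.Agent.Results.MP_0da4e0_ag.OneLinearSection
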