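import Pool.Agent.Y132.AH.Full

/-!
# Full faithfulness of the Hodge realization on motives of symplectic type

Let `k` be an algebraically closed field with an embedding into `ℂ`, and let `W` be the cohomology of
the complex manifolds of smooth projective varieties over `k` with complex coefficients, with its
rational Hodge structures (`HodgeData`) and its comparison with the cohomology for the other
embeddings (`Embeddings`), which defines the absolute Hodge classes and the motives `(X, p, m)` for
absolute Hodge cycles (`IsAbsOp`).

Let `𝒵` be a class of varieties which is closed under products (for example the abelian varieties)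
and `X i` any family of odd-dimensional varieties, which may be infinite, such that homological and
numerical equivalence coincide on `X i`, the transcendental cohomology `T i` of `X i` is concentrated
in the middle degree and not zero, the Mumford-Tate group acts irreducibly on the Lie algebra of
the skew operators on `T i` (it is the symplectic group up to scalars), and these representations
are pairwise not isomorphic.

The Hodge realization is fully faithful on the motives of all products of varieties in `𝒵` and powers
of the `X i` if and only if it is fully faithful on the motives of the small products. If the Hodge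
types of the `T i` are separated from those of the generators of the cohomology of the varieties in
`𝒵` then it is fully faithful on the motives of all products if and only if it is fully faithful on
the motives of the varieties in `𝒵`. Hence, by the theorem of Deligne, it is fully faithful on the
motives generated by abelian varieties and varieties `X i` such that the Hodge structures `T i` have
a type `(p, q)` with `p - q > 1`.
-/

open CategoryTheory AlgebraicGeometry

universe u

namespace Pool.Agent.Results.MP_0da4e0_ag.SymplecticMotives

open Pool.Agent.H914 Pool.Agent.H914.VarClass Pool.Agent.H914.VarClass.Obj Pool.Agent.Y132.AH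

variable {k : Type u} [Field k] {𝒱 : VarClass k} {ops : CycleOps 𝒱}

theorem result (W : WeilCohomology.{u, 0} ops) [IsAlgClosed W.K] (Ψ : HodgeData W)
    (E : Embeddings W) (𝒵 : Set 𝒱.Obj) (h𝒵 : ∀ Z ∈ 𝒵, ∀ Z' ∈ 𝒵, Z.prod Z' ∈ 𝒵) {ι : Type}
    [DecidableEq ι] (X : ι → 𝒱.Obj) (hX : SpFamily Ψ X) :
    (FullyFaithfulOn Ψ E (productsWith 𝒵 X) ↔ FullyFaithfulOn Ψ E (smallProducts Ψ 𝒵 X)) ∧
    ((∀ i, ∀ Z ∈ 𝒵, TypeSep Ψ (X i) Z) →
      (FullyFaithfulOn Ψ E (productsWith 𝒵 X) ↔ FullyFaithfulOn Ψ E 𝒵)) :=
  ⟨full_iff Ψ E h𝒵 hX, full_sep Ψ E h𝒵 hX⟩

end Pool.Agent.Results.MP_0da4e0_ag.SymplecticMotives
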